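import Pool.Agent.MWNP.Stmts

/-!
# MWNP, row P4E (MP_23468a_al; clause c4e of base (h), period `n`; twin of the row N4E of helper30)
-/

set_option autoImplicit false

namespace Pool.Agent.MWNP.H50

open Pool.Agent.Helper14_MV Pool.Agent.Helper2_MV Pool.Agent.MVO Pool.Agent.MWL Pool.Agent.MWS
  Pool.Agent.MWF Pool.Agent.MWN

theorem okb_of {k : ℕ} {B : ℕ → List ℕ} (h : Two01 k B)
    (h0 : 2 ≤ deg k (fun j => (B j).count 0)) (h1 : 2 ≤ deg k (fun j => (B j).count 1)) :
    OkB k B := by
  refine ⟨?_, ?_⟩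
  · intro j hj c hc hs
    rcases h j hj c hc with rfl | rfl
    · exact absurd hs.1 (by omega)
    · exact absurd hs.1 (by omega)
  · intro j hj c hc
    rcases h j hj c hc with rfl | rfl
    · exact h0
    · exact h1

/-- the family with two blocks -/
def F2 (l : List ℕ) : ℕ → List ℕ := fun j => if j = 0 then [1] else l

theorem f2_two {l : List ℕ} (h : ∀ c ∈ l, c = 0 ∨ c = 1) : Two01 1 (F2 l) := by
  intro j _ c hc
  unfold F2 at hc
  by_cases hj : j = 0
  · rw [if_pos hj, List.mem_singleton] at hc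
    exact Or.inr hc
  · rw [if_neg hj] at hc
    exact h c hc

theorem f2_ok {l : List ℕ} (h : ∀ c ∈ l, c = 0 ∨ c = 1) (h0 : 2 ≤ l.count 0)
    (h1 : 1 ≤ l.count 1) : OkB 1 (F2 l) := by
  apply okb_of (f2_two h)
  · unfold deg
    rw [Finset.sum_range_succ, Finset.sum_range_one]
    show 2 ≤ [1].count 0 + l.count 0
    have : [1].count 0 = 0 := by decide
    omega
  · unfold deg
    rw [Finset.sum_range_succ, Finset.sum_range_one]
    show 2 ≤ [1].count 1 + l.count 1
    have : [1].count 1 = 1 := by decide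
    omega

theorem hs1 {n : ℕ} {β : FIC} (hB : HBP n β) (l l' : List ℕ) (h : ∀ c ∈ l, c = 0 ∨ c = 1)
    (h' : ∀ c ∈ l', c = 0 ∨ c = 1) (c0 : 2 ≤ l.count 0) (c0' : 2 ≤ l'.count 0)
    (c00 : l.count 0 ≡ l'.count 0 [MOD n])
    (c1 : l.count 1 = 1) (c1' : l'.count 1 = 1)
    (hs : (Fst false l ↔ Fst false l') ∧ (Fst true l ↔ Fst true l')) :
    RR β (1 :: 2 :: l) (1 :: 2 :: l') := by
  refine hB.hst 1 (F2 l) (F2 l') (f2_ok h c0 (by omega)) (f2_ok h' c0' (by omega)) (f2_two h)
    (f2_two h') ?_ ?_ ?_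
  · intro j _
    unfold ty F2
    by_cases hj : j = 0
    · left; rw [if_pos hj, if_pos hj]
    · right; rw [if_neg hj, if_neg hj]; exact ⟨c0, c0', c00⟩
  · intro j _
    unfold ty F2
    by_cases hj : j = 0
    · left; rw [if_pos hj, if_pos hj]
    · left; rw [if_neg hj, if_neg hj, c1, c1']
  · intro i _ _
    unfold F2
    by_cases hj : i = 0
    · rw [if_pos hj, if_pos hj]; exact ⟨Iff.rfl, Iff.rfl⟩
    · rw [if_neg hj, if_neg hj]; exact hs

/-- the exponent of the chunk -/
theorem red_a {n : ℕ} {β : FIC} (hB : HBP n β) (p : ℕ) (hp : 2 ≤ p) (h : p ≡ 2 [MOD n]) :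
    RR β (1 :: 2 :: (List.replicate p 0 ++ [1])) [1, 2, 0, 0, 1] := by
  refine hs1 hB (List.replicate p 0 ++ [1]) [0, 0, 1] (by
      intro c hc
      rcases List.mem_append.1 hc with h2 | h2
      · exact Or.inl (List.eq_of_mem_replicate h2)
      · exact Or.inr (List.mem_singleton.1 h2)) (by decide)
    (by rw [List.count_append, List.count_replicate_self]; omega) (by decide)
    (by
      rw [List.count_append, List.count_replicate_self]
      exact h)
    (by rw [List.count_append, List.count_replicate]; rfl) (by decide) ?_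
  have n1 : ¬ List.Sublist [1, 0] (List.replicate p 0 ++ [1]) := by
    intro h2
    rw [List.sublist_append_iff] at h2
    obtain ⟨l1, l2, e, g1, g2⟩ := h2
    have m1 : ∀ c ∈ l1, c = 0 := fun c hc => List.eq_of_mem_replicate (g1.subset hc)
    have m2 : ∀ c ∈ l2, c = 1 := fun c hc => List.mem_singleton.1 (g2.subset hc)
    cases l1 with
    | nil =>
      rw [List.nil_append] at e
      have := m2 0 (by rw [← e]; simp)
      omega
    | cons x l1 =>
      have e1 := (List.cons.inj e).1
      have := m1 x (by simp)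
      omega
  have y1 : List.Sublist [0, 1] (List.replicate p 0 ++ [1]) := by
    obtain ⟨q, hq⟩ : ∃ q, p = q + 1 := ⟨p - 1, by omega⟩
    rw [hq, List.replicate_succ, List.cons_append]
    exact List.Sublist.cons_cons _ (List.sublist_append_right _ _)
  constructor
  · show (¬ List.Sublist [1, 0] (List.replicate p 0 ++ [1])) ↔ (¬ List.Sublist [1, 0] [0, 0, 1])
    exact iff_of_true n1 (by decide)
  · show (¬ List.Sublist [0, 1] (List.replicate p 0 ++ [1])) ↔ (¬ List.Sublist [0, 1] [0, 0, 1])
    exact iff_of_false (fun h => h y1) (by decide)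

theorem red_b {n : ℕ} {β : FIC} (hB : HBP n β) (p : ℕ) (hp : 1 ≤ p) (h : p + 1 ≡ 2 [MOD n]) :
    RR β (1 :: 2 :: (List.replicate p 0 ++ [1, 0])) [1, 2, 0, 1, 0] := by
  refine hs1 hB (List.replicate p 0 ++ [1, 0]) [0, 1, 0] (by
      intro c hc
      rcases List.mem_append.1 hc with h2 | h2
      · exact Or.inl (List.eq_of_mem_replicate h2)
      · simp at h2
        tauto) (by decide)
    (by
      rw [List.count_append, List.count_replicate_self]
      have : List.count 0 [1, 0] = 1 := by decide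
      omega) (by decide)
    (by
      rw [List.count_append, List.count_replicate_self]
      exact h)
    (by rw [List.count_append, List.count_replicate]; rfl) (by decide) ?_
  have y0 : List.Sublist [1, 0] (List.replicate p 0 ++ [1, 0]) :=
    List.sublist_append_right _ _
  have y1 : List.Sublist [0, 1] (List.replicate p 0 ++ [1, 0]) := by
    obtain ⟨q, hq⟩ : ∃ q, p = q + 1 := ⟨p - 1, by omega⟩
    rw [hq, List.replicate_succ, List.cons_append]
    exact List.Sublist.cons_cons _ (List.Sublist.trans (by decide : List.Sublist [1] [1, 0])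
      (List.sublist_append_right _ _))
  constructor
  · show (¬ List.Sublist [1, 0] (List.replicate p 0 ++ [1, 0])) ↔
      (¬ List.Sublist [1, 0] [0, 1, 0])
    exact iff_of_false (fun h => h y0) (by decide)
  · show (¬ List.Sublist [0, 1] (List.replicate p 0 ++ [1, 0])) ↔
      (¬ List.Sublist [0, 1] [0, 1, 0])
    exact iff_of_false (fun h => h y1) (by decide)

/-- a chunk at the end -/
theorem red_c {n : ℕ} {β : FIC} (hB : HBP n β) (p : ℕ) (hp : 1 ≤ p) (h : 2 + p ≡ 2 [MOD n]) :
    RR β (1 :: 2 :: ([0, 0, 1] ++ List.replicate p 0)) [1, 2, 0, 1, 0] := by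
  refine hs1 hB ([0, 0, 1] ++ List.replicate p 0) [0, 1, 0] (by
      intro c hc
      rcases List.mem_append.1 hc with h2 | h2
      · simp at h2
        tauto
      · exact Or.inl (List.eq_of_mem_replicate h2)) (by decide)
    (by
      rw [List.count_append, List.count_replicate_self]
      have : List.count 0 [0, 0, 1] = 2 := by decide
      omega) (by decide)
    (by
      rw [List.count_append, List.count_replicate_self]
      exact h)
    (by rw [List.count_append, List.count_replicate]; rfl) (by decide) ?_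
  obtain ⟨q, rfl⟩ : ∃ q, p = q + 1 := ⟨p - 1, by omega⟩
  have y0 : List.Sublist [1, 0] ([0, 0, 1] ++ List.replicate (q + 1) 0) := by
    rw [List.replicate_succ]
    exact List.Sublist.cons _ (List.Sublist.cons _ (List.Sublist.cons_cons _
      (List.Sublist.cons_cons _ (List.nil_sublist _))))
  have y1 : List.Sublist [0, 1] ([0, 0, 1] ++ List.replicate (q + 1) 0) :=
    List.Sublist.cons _ (List.Sublist.cons_cons _ (List.Sublist.cons_cons _ (List.nil_sublist _)))
  constructor
  · show (¬ List.Sublist [1, 0] ([0, 0, 1] ++ List.replicate (q + 1) 0)) ↔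
      (¬ List.Sublist [1, 0] [0, 1, 0])
    exact iff_of_false (fun h => h y0) (by decide)
  · show (¬ List.Sublist [0, 1] ([0, 0, 1] ++ List.replicate (q + 1) 0)) ↔
      (¬ List.Sublist [0, 1] [0, 1, 0])
    exact iff_of_false (fun h => h y1) (by decide)

theorem ab_ext' {n : ℕ} {R : FC} {k j : ℕ} {a a' : ℕ → ℕ} (h : ∀ i ≤ k, a i = a' i)
    (hA : Ab n R k a j) : Ab n R k a' j :=
  R.ext h (fun i hi => by unfold ad; rw [h i hi]) hA

theorem flatMap_rep (f : ℕ → List ℕ) (hf : f 0 = [0]) (k : ℕ) :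
    (List.replicate k 0).flatMap f = List.replicate k 0 := by
  induction k with
  | zero => rfl
  | succ k ih =>
    rw [List.replicate_succ, List.flatMap_cons, ih, hf]
    rfl

theorem modn (n a : ℕ) : a * n + 2 ≡ 2 [MOD n] :=
  (Nat.ModEq.add_right 2 (Nat.modEq_zero_iff_dvd.2 (Dvd.intro_left a rfl))).trans (by rw [zero_add])

theorem p4e (hPPH : PphStmt) (hPCX : PcxStmt) (hPCO : PcoStmt) : P4eStmt := by
  intro n β hB hI hM hJ
  have hn := hB.pos
  by_contra hC
  have hG : ¬ Op n β Bit.G := by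
    intro hG
    apply hC
    have hab : Ab n (FC.ofFIC β) 1 (wo 0 (ty (F2 [0, 0, 1]) 0)) 0 := by
      refine ab_ext' (a := Bit.G.a) ?_ hG
      decide
    exact hPCO n β hB hI 1 (F2 [0, 0, 1]) (F2 [0, 1, 0]) 0 1 0
      (f2_ok (by decide) (by decide) (by decide)) (f2_ok (by decide) (by decide) (by decide))
      (f2_two (by decide)) (f2_two (by decide)) (fun j hj => Or.inl (by revert j; decide))
      (fun j hj => Or.inl (by revert j; decide))
      (Or.inl ⟨rfl, rfl⟩) (by decide) (by decide) (by decide) (by decide) hab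
  have hE : ¬ Op n β Bit.E := by
    intro hE
    apply hC
    have h1 : RR β [0, 0, 2] ([0, 0, 2] ++ List.replicate (0 + 2 * n) 0) := hE
    rw [Nat.zero_add] at h1
    have h2 := h1.sub (fun c => if c = 2 then [1] else [c])
    rw [List.flatMap_append, flatMap_rep _ rfl] at h2
    have h3 : RR β [1, 2, 0, 0, 1] (1 :: 2 :: ([0, 0, 1] ++ List.replicate (2 * n) 0)) :=
      (RR.refl (β := β) [1, 2]).append h2
    refine β.trans h3 (red_c hB (2 * n) (by omega) ?_)
    rw [Nat.add_comm]
    exact modn n 2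
  have hc1 : Clo β 3 (cd4 Cd.z Cd.one Cd.one Cd.one) := by
    refine hPCX n β hB hI [8, 10] 3 _ ?_ (by decide +kernel)
    intro x hx
    simp only [List.mem_cons, List.not_mem_nil, or_false] at hx
    rcases hx with rfl | rfl
    · left; rfl
    · right; right; right; right; right; right; exact ⟨rfl, hJ⟩
  have hc2 : Clo β 3 (cd4 Cd.one Cd.z Cd.z Cd.one) := by
    refine hPCX n β hB hI [8] 3 _ ?_ (by decide +kernel)
    intro x hx
    left
    exact List.mem_singleton.1 hx
  have hc3 : Clo β 3 (cd4 Cd.z Cd.any Cd.any Cd.pos) := by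
    refine hPCX n β hB hI [8, 10, 2, 0] 3 _ ?_ (by decide +kernel)
    intro x hx
    simp only [List.mem_cons, List.not_mem_nil, or_false] at hx
    rcases hx with rfl | rfl | rfl | rfl
    · left; rfl
    · right; right; right; right; right; right; exact ⟨rfl, hJ⟩
    · right; right; right; left; exact ⟨rfl, hG⟩
    · right; left; exact ⟨rfl, hE⟩
  rcases hPPH n β hB hI hM 3 3 (cd4 Cd.z Cd.one Cd.one Cd.one) (cd4 Cd.one Cd.z Cd.z Cd.one)
    (cd4 Cd.z Cd.any Cd.any Cd.pos) (cd4 Cd.one Cd.z Cd.z Cd.one) false (v4 0 2 2 2)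
    (v4 0 1 1 1) (v4 1 0 0 1) (v4 1 0 0 1) (by decide +kernel) (by decide) (by decide)
    (by decide) (by decide) hc1 hc2 hc3 hc2 with h | h
  · apply hC
    have h1 : RR β [1, 2, 0, 3, 0, 4, 0, 1] [1, 2, 0, 3, 0, 4, 1, 0] := h
    have h2 : RR β [1, 2, 0, 0, 0, 1] [1, 2, 0, 0, 1, 0] :=
      h1.filter (fun c => decide (c ≤ 2))
    have h3 : RR β (1 :: 2 :: (List.replicate (n - 1) 0 ++ [0, 0, 0, 1]))
        (1 :: 2 :: (List.replicate (n - 1) 0 ++ [0, 0, 1, 0])) :=
      h2.sub (fun c => if c = 2 then 2 :: List.replicate (n - 1) 0 else [c])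
    have e1 : List.replicate (n - 1) 0 ++ [0, 0, 0, 1] = List.replicate (1 * n + 2) 0 ++ [1] := by
      rw [show 1 * n + 2 = (n - 1) + 3 by omega, List.replicate_add, List.append_assoc]
      rfl
    have e2 : List.replicate (n - 1) 0 ++ [0, 0, 1, 0] =
        List.replicate (1 * n + 1) 0 ++ [1, 0] := by
      rw [show 1 * n + 1 = (n - 1) + 2 by omega, List.replicate_add, List.append_assoc]
      rfl
    rw [e1, e2] at h3
    exact β.trans (β.trans (β.symm (red_a hB (1 * n + 2) (by omega) (modn n 1))) h3)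
      (red_b hB (1 * n + 1) (by omega) (modn n 1))
  · apply hC
    have h1 : RR β [1, 2, 0, 0, 3, 0, 0, 4, 0, 0, 1] [1, 2, 0, 0, 3, 0, 0, 4, 0, 1, 0] := h
    have h2 : RR β [1, 2, 0, 0, 0, 0, 0, 0, 1] [1, 2, 0, 0, 0, 0, 0, 1, 0] :=
      h1.filter (fun c => decide (c ≤ 2))
    have h3 : RR β (1 :: 2 :: (List.replicate (4 * n - 4) 0 ++ [0, 0, 0, 0, 0, 0, 1]))
        (1 :: 2 :: (List.replicate (4 * n - 4) 0 ++ [0, 0, 0, 0, 0, 1, 0])) :=
      h2.sub (fun c => if c = 2 then 2 :: List.replicate (4 * n - 4) 0 else [c])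
    have e1 : List.replicate (4 * n - 4) 0 ++ [0, 0, 0, 0, 0, 0, 1] =
        List.replicate (4 * n + 2) 0 ++ [1] := by
      rw [show 4 * n + 2 = (4 * n - 4) + 6 by omega, List.replicate_add, List.append_assoc]
      rfl
    have e2 : List.replicate (4 * n - 4) 0 ++ [0, 0, 0, 0, 0, 1, 0] =
        List.replicate (4 * n + 1) 0 ++ [1, 0] := by
      rw [show 4 * n + 1 = (4 * n - 4) + 5 by omega, List.replicate_add, List.append_assoc]
      rfl
    rw [e1, e2] at h3
    exact β.trans (β.trans (β.symm (red_a hB (4 * n + 2) (by omega) (modn n 4))) h3)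
      (red_b hB (4 * n + 1) (by omega) (modn n 4))

end Pool.Agent.MWNP.H50
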